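import Pool.Agent.Helper10.CI.Sing

/-!
# CI-POL: polarisation (second copy)

The `2 × 2` minors of `(pr x (Sv D x P k), pr x (Sv D x P l))` are quadratic forms in `P`; they vanish at
all rational `P`, hence also the sums of the two mixed terms, so they vanish on the span of the
rational tuples, which is everything.
-/

set_option autoImplicit false

namespace Pool.Agent.Helper13.CI

open scoped BigOperators
open MvPolynomial
open Pool.Agent.Helper10.CI
open Pool.Agent.Helper8.LG (Bdd form mon Ix)
open Pool.Agent.Helper49.LN (cP mo hf pl)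
open Pool.Agent.Helper6.QS (dv ev lf dt Par RatP)

section

variable {Ω : Type*} [Field Ω] {N r : ℕ} {d : Fin r → ℕ}
  {D : Ix (Fin (N + 1)) d → Derivation ℤ Ω Ω} {B : Subfield Ω}

theorem pr_li (x : Fin (N + 1) → Ω) (hx : x 0 = 1) (u v : Fin (N + 1) → Ω) :
    LinearIndependent Ω ![x, u, v] ↔ LinearIndependent Ω ![pr x u, pr x v] := by
  have hpr : ∀ s t : Ω, s • pr x u + t • pr x v = (-(s * u 0 + t * v 0)) • x + s • u + t • v := by
    intro s t
    funext l
    simp only [pr, Pi.add_apply, Pi.smul_apply, smul_eq_mul]
    ring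
  rw [LinearIndependent.pair_iff, Fintype.linearIndependent_iff]
  constructor
  · intro h s t hst
    rw [hpr] at hst
    have h1 := h ![-(s * u 0 + t * v 0), s, t] (by
      rw [Fin.sum_univ_three]
      exact hst)
    exact ⟨h1 1, h1 2⟩
  · intro h g hg
    rw [Fin.sum_univ_three] at hg
    have hg' : g 0 • x + g 1 • u + g 2 • v = 0 := hg
    have h0 : g 0 = -(g 1 * u 0 + g 2 * v 0) := by
      have h1 := congrFun hg' 0
      simp only [Pi.add_apply, Pi.smul_apply, smul_eq_mul, hx, mul_one, Pi.zero_apply] at h1
      linear_combination h1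
    have h2 := h (g 1) (g 2) (by rw [hpr, ← h0]; exact hg')
    have h3 : g 0 = 0 := by rw [h0, h2.1, h2.2]; ring
    intro i
    fin_cases i
    · exact h3
    · exact h2.1
    · exact h2.2

/-- dependent pairs are those with vanishing minors -/
theorem pair_minors {n : ℕ} (u v : Fin n → Ω) :
    (¬ LinearIndependent Ω ![u, v]) ↔ ∀ i j, u i * v j - u j * v i = 0 := by
  rw [LinearIndependent.pair_iff]
  constructor
  · intro h i j
    by_contra hne
    apply h
    intro s t hst
    have hc : ∀ l, s * u l + t * v l = 0 := fun l => congrFun hst l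
    constructor
    · have h1 : s * (u i * v j - u j * v i) = 0 := by
        linear_combination v j * hc i - v i * hc j
      exact (mul_eq_zero.1 h1).resolve_right hne
    · have h1 : t * (u i * v j - u j * v i) = 0 := by
        linear_combination u i * hc j - u j * hc i
      exact (mul_eq_zero.1 h1).resolve_right hne
  · intro h hli
    by_cases hu : u = 0
    · have h1 := (hli 1 0 (by rw [hu]; simp)).1
      exact one_ne_zero h1
    · obtain ⟨i, hi⟩ := Function.ne_iff.1 hu
      have h1 := (hli (v i) (-(u i)) (by
        funext j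
        simp only [Pi.add_apply, Pi.smul_apply, smul_eq_mul, Pi.zero_apply]
        have h2 := h i j
        linear_combination -h2)).2
      exact hi (neg_eq_zero.1 h1)

/-- the vectors as linear maps -/
noncomputable def Lk (D : Ix (Fin (N + 1)) d → Derivation ℤ Ω Ω) (x : Fin (N + 1) → Ω)
    (k : Fin (N + 1)) :
    (Fin r → MvPolynomial (Fin (N + 1)) Ω) →ₗ[Ω] (Fin (N + 1) → Ω) where
  toFun P := pr x (Sv D x P k)
  map_add' P Q := by
    have h1 : Sv D x (P + Q) k = Sv D x P k + Sv D x Q k := by
      unfold Sv
      rw [← map_add]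
      congr 1
      funext i
      simp only [Pi.add_apply, mul_add]
    rw [h1]
    funext l
    simp only [pr, Pi.add_apply]
    ring
  map_smul' c P := by
    have h1 : Sv D x (c • P) k = c • Sv D x P k := by
      unfold Sv
      rw [← map_smul]
      congr 1
      funext i
      simp only [Pi.smul_apply, mul_smul_comm]
    rw [h1]
    funext l
    simp only [pr, Pi.smul_apply, smul_eq_mul, RingHom.id_apply]
    ring

theorem Lk_apply (x : Fin (N + 1) → Ω) (k : Fin (N + 1))
    (P : Fin r → MvPolynomial (Fin (N + 1)) Ω) : Lk D x k P = pr x (Sv D x P k) := rfl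

/-- the rational tuples span everything -/
theorem rat_span (B : Subfield Ω) (P : Fin r → MvPolynomial (Fin (N + 1)) Ω) :
    P ∈ Submodule.span Ω {Q : Fin r → MvPolynomial (Fin (N + 1)) Ω | RatT B Q} := by
  classical
  have h1 : P = ∑ i, ∑ m ∈ (P i).support, coeff m (P i) • sg i (monomial m (1 : Ω)) := by
    funext j
    rw [Finset.sum_apply, Finset.sum_eq_single j]
    · rw [Finset.sum_apply]
      conv_lhs => rw [(P j).as_sum]
      refine Finset.sum_congr rfl fun m _ => ?_
      rw [Pi.smul_apply, sg, Pi.single_eq_same, smul_monomial, smul_eq_mul, mul_one]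
    · intro i _ hi
      rw [Finset.sum_apply]
      refine Finset.sum_eq_zero fun m _ => ?_
      rw [Pi.smul_apply, sg, Pi.single_eq_of_ne (Ne.symm hi), smul_zero]
    · intro h
      exact absurd (Finset.mem_univ j) h
  rw [h1]
  refine Submodule.sum_mem _ fun i _ => Submodule.sum_mem _ fun m _ =>
    Submodule.smul_mem _ _ (Submodule.subset_span ?_)
  intro j m'
  rw [sg]
  by_cases hj : j = i
  · subst hj
    rw [Pi.single_eq_same, coeff_monomial]
    split_ifs
    · exact B.one_mem
    · exact B.zero_mem
  · rw [Pi.single_eq_of_ne hj, coeff_zero]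
    exact B.zero_mem

/-- polarisation: two linear maps into a product -/
theorem polar {M : Type*} [AddCommGroup M] [Module Ω M] {n : ℕ} (T : Set M)
    (hT : ∀ P ∈ T, ∀ Q ∈ T, P + Q ∈ T) (f g : M →ₗ[Ω] (Fin n → Ω)) (i j : Fin n)
    (h : ∀ P ∈ T, f P i * g P j - f P j * g P i = 0) :
    ∀ P ∈ Submodule.span Ω T, f P i * g P j - f P j * g P i = 0 := by
  -- mixed terms
  have h1 : ∀ P ∈ T, ∀ Q ∈ T, f P i * g Q j - f P j * g Q i + (f Q i * g P j - f Q j * g P i) = 0 := by
    intro P hP Q hQ
    have h2 := h (P + Q) (hT P hP Q hQ)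
    simp only [map_add, Pi.add_apply] at h2
    linear_combination h2 - h P hP - h Q hQ
  have h2 : ∀ P ∈ T, ∀ Q ∈ Submodule.span Ω T,
      f P i * g Q j - f P j * g Q i + (f Q i * g P j - f Q j * g P i) = 0 := by
    intro P hP Q hQ
    induction hQ using Submodule.span_induction with
    | mem Q hQ => exact h1 P hP Q hQ
    | zero => simp
    | add Q Q' _ _ hQ hQ' =>
      simp only [map_add, Pi.add_apply]
      linear_combination hQ + hQ'
    | smul c Q _ hQ =>
      simp only [map_smul, Pi.smul_apply, smul_eq_mul]
      linear_combination c * hQ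
  have h3 : ∀ P ∈ Submodule.span Ω T, ∀ Q ∈ Submodule.span Ω T,
      f P i * g Q j - f P j * g Q i + (f Q i * g P j - f Q j * g P i) = 0 := by
    intro P hP Q hQ
    induction hP using Submodule.span_induction with
    | mem P hP => exact h2 P hP Q hQ
    | zero => simp
    | add P P' _ _ hP hP' =>
      simp only [map_add, Pi.add_apply]
      linear_combination hP + hP'
    | smul c P _ hP =>
      simp only [map_smul, Pi.smul_apply, smul_eq_mul]
      linear_combination c * hP
  intro P hP
  induction hP using Submodule.span_induction with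
  | mem P hP => exact h P hP
  | zero => simp
  | add P P' hP hP' h4 h5 =>
    have h6 := h3 P hP P' hP'
    simp only [map_add, Pi.add_apply]
    linear_combination h4 + h5 + h6
  | smul c P _ h4 =>
    simp only [map_smul, Pi.smul_apply, smul_eq_mul]
    linear_combination c ^ 2 * h4

theorem pol (x : Fin (N + 1) → Ω) (hx : x 0 = 1)
    (h : ∀ P : Fin r → MvPolynomial (Fin (N + 1)) Ω, RatT B P → ∀ k l,
      ¬ LinearIndependent Ω ![x, Sv D x P k, Sv D x P l])
    (P : Fin r → MvPolynomial (Fin (N + 1)) Ω) (k l : Fin (N + 1)) :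
    ¬ LinearIndependent Ω ![pr x (Sv D x P k), pr x (Sv D x P l)] := by
  rw [pair_minors]
  intro i j
  refine polar {Q : Fin r → MvPolynomial (Fin (N + 1)) Ω | RatT B Q} ?_ (Lk D x k) (Lk D x l) i j
    ?_ P (rat_span B P)
  · intro P hP Q hQ i m
    rw [Pi.add_apply, coeff_add]
    exact B.add_mem (hP i m) (hQ i m)
  · intro P hP
    have h1 := h P hP k l
    rw [pr_li x hx, pair_minors] at h1
    exact h1 i j

end

end Pool.Agent.Helper13.CI
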